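import Pool.Agent.helper21.KBR.Defs

/-!
# MODULE S2 (`comm_unique`) of the Kähler domains project (MP_07cd05_gt)

The commutant of an algebraic curvature tensor with sectional curvatures of one sign on a
hyperplane.
-/

noncomputable section

namespace KBR

open scoped RealInnerProductSpace

variable {n : ℕ}

namespace CU

variable {g : E n →L[ℝ] E n}

lemma ext_of (hpos : ∀ v, v ≠ 0 → 0 < ⟪g v, v⟫) {x y : E n}
    (h : ∀ w, ⟪g x, w⟫ = ⟪g y, w⟫) : x = y := by
  by_contra hne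
  have h1 := hpos (x - y) (sub_ne_zero.mpr hne)
  rw [map_sub, inner_sub_left] at h1
  linarith [h (x - y)]

lemma quad {q Q : ℝ} (h : ∀ t : ℝ, 0 ≤ 2 * t * q + t ^ 2 * Q) (hQ : 0 ≤ Q) : q = 0 := by
  have h1 := h (-q / (Q + 1))
  have h2 : 0 < Q + 1 := by linarith
  have h3 : 2 * (-q / (Q + 1)) * q + (-q / (Q + 1)) ^ 2 * Q =
      -(q ^ 2 * (Q + 2)) / (Q + 1) ^ 2 := by
    field_simp
    ring
  rw [h3, le_div_iff₀ (by positivity), zero_mul] at h1
  have h4 : q ^ 2 = 0 := by nlinarith [sq_nonneg q]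
  exact pow_eq_zero_iff (two_ne_zero) |>.mp h4

lemma exists_eig (hn : ∃ v : E n, v ≠ 0) (hg : ∀ u v, ⟪g u, v⟫ = ⟪g v, u⟫)
    (hpos : ∀ v, v ≠ 0 → 0 < ⟪g v, v⟫) (A : E n →L[ℝ] E n)
    (hA : ∀ u v, ⟪g (A u), v⟫ = ⟪g (A v), u⟫) :
    ∃ (a : ℝ) (x : E n), x ≠ 0 ∧ A x = a • x ∧ ∀ v, ⟪g (A v), v⟫ ≤ a * ⟪g v, v⟫ := by
  obtain ⟨v0, hv0⟩ := hn
  have hc : IsCompact (Metric.sphere (0 : E n) 1) := isCompact_sphere _ _
  have hne : (Metric.sphere (0 : E n) 1).Nonempty := by
    refine ⟨‖v0‖⁻¹ • v0, ?_⟩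
    rw [mem_sphere_zero_iff_norm, norm_smul, norm_inv, norm_norm,
      inv_mul_cancel₀ (norm_ne_zero_iff.mpr hv0)]
  have hcont : ContinuousOn (fun v : E n => ⟪g (A v), v⟫ / ⟪g v, v⟫)
      (Metric.sphere (0 : E n) 1) := by
    apply ContinuousOn.div
    · fun_prop
    · fun_prop
    · intro v hv
      apply (hpos v _).ne'
      rintro rfl
      simp at hv
  obtain ⟨x, hx, hmax⟩ := hc.exists_isMaxOn hne hcont
  set a : ℝ := ⟪g (A x), x⟫ / ⟪g x, x⟫ with ha
  have hx0 : x ≠ 0 := by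
    rintro rfl
    simp at hx
  have hle : ∀ v, ⟪g (A v), v⟫ ≤ a * ⟪g v, v⟫ := by
    intro v
    by_cases hv : v = 0
    · subst hv; simp
    · have hnv : ‖v‖ ≠ 0 := norm_ne_zero_iff.mpr hv
      have hu : ‖v‖⁻¹ • v ∈ Metric.sphere (0 : E n) 1 := by
        rw [mem_sphere_zero_iff_norm, norm_smul, norm_inv, norm_norm, inv_mul_cancel₀ hnv]
      have h1 := hmax hu
      simp only [Set.mem_ofPred_eq, map_smul, inner_smul_left, inner_smul_right,
        RCLike.conj_to_real] at h1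
      have h2 := hpos v hv
      have h3 : ‖v‖⁻¹ * (‖v‖⁻¹ * ⟪g (A v), v⟫) / (‖v‖⁻¹ * (‖v‖⁻¹ * ⟪g v, v⟫)) =
          ⟪g (A v), v⟫ / ⟪g v, v⟫ := by
        field_simp
      rw [h3] at h1
      rw [← div_le_iff₀ h2]
      exact h1
  refine ⟨a, x, hx0, ?_, hle⟩
  apply ext_of hpos
  intro w
  have hax : ⟪g (A x), x⟫ = a * ⟪g x, x⟫ := by
    rw [ha, div_mul_cancel₀ _ (hpos x hx0).ne']
  have hq := quad (q := a * ⟪g x, w⟫ - ⟪g (A x), w⟫) (Q := a * ⟪g w, w⟫ - ⟪g (A w), w⟫) ?_ ?_
  · rw [map_smul, inner_smul_left, RCLike.conj_to_real]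
    linarith
  · intro t
    have h1 := hle (x + t • w)
    simp only [map_add, map_smul, inner_add_left, inner_add_right, inner_smul_left,
      inner_smul_right, RCLike.conj_to_real] at h1
    have h2 := hg w x
    have h3 := hA w x
    rw [h2, h3] at h1
    nlinarith
  · linarith [hle w]

end CU

open CU in
theorem comm_unique {g J K : E n →L[ℝ] E n} {R : E n → E n → E n →L[ℝ] E n} {p : E n}
    (hg : ∀ u v, ⟪g u, v⟫ = ⟪g v, u⟫) (hpos : ∀ v, v ≠ 0 → 0 < ⟪g v, v⟫)
    (hJ : ∀ v, J (J v) = -v) (hJg : ∀ u v, ⟪g (J u), J v⟫ = ⟪g u, v⟫)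
    (hK : ∀ v, K (K v) = -v) (hKg : ∀ u v, ⟪g (K u), K v⟫ = ⟪g u, v⟫)
    (r1 : ∀ u v w z, ⟪g (R u v w), z⟫ = -⟪g w, R u v z⟫)
    (r2 : ∀ u v w, R u v w + R v w u + R w u v = 0)
    (r3 : ∀ u v w, R u v (J w) = J (R u v w))
    (r4 : ∀ u v w z, ⟪g (R u v w), z⟫ = ⟪g (R w z u), v⟫)
    (r5 : ∀ u v w, R (J u) (J v) w = R u v w)
    (hp : p ≠ 0)
    (hcom : ∀ u v, ⟪p, u⟫ = 0 → ⟪p, v⟫ = 0 → ∀ w, R u v (K w) = K (R u v w))
    (hsec : (∀ u v, ⟪p, u⟫ = 0 → ⟪p, v⟫ = 0 → LinearIndependent ℝ ![u, v] →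
        0 < ⟪g (R u v v), u⟫) ∨
      (∀ u v, ⟪p, u⟫ = 0 → ⟪p, v⟫ = 0 → LinearIndependent ℝ ![u, v] → ⟪g (R u v v), u⟫ < 0)) :
    (∀ v, K v = J v) ∨ (∀ v, K v = -J v) := by
  -- antisymmetry
  have hJt : ∀ u v, ⟪g (J u), v⟫ = -⟪g u, J v⟫ := by
    intro u v
    rw [← hJg (J u) v, hJ, map_neg, inner_neg_left]
  have hKt : ∀ u v, ⟪g (K u), v⟫ = -⟪g u, K v⟫ := by
    intro u v
    rw [← hKg (K u) v, hK, map_neg, inner_neg_left]
  have ranti : ∀ u v w z, ⟪g (R u v w), z⟫ = -⟪g (R v u w), z⟫ := by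
    intro u v w z
    rw [r4 u v w z, r1 w z u v, hg u, ← r4 v u w z]
  -- the sectional form, with a sign `ε`
  have hsec' : ∃ ε : ℝ, ∀ u v, ⟪p, u⟫ = 0 → ⟪p, v⟫ = 0 → LinearIndependent ℝ ![u, v] →
      0 < ε * ⟪g (R u v u), v⟫ := by
    have key : ∀ u v, ⟪g (R u v u), v⟫ = -⟪g (R u v v), u⟫ := by
      intro u v
      rw [r1 u v u v, hg u]
    rcases hsec with h | h
    · refine ⟨-1, fun u v hu hv hl => ?_⟩
      rw [key]
      linarith [h u v hu hv hl]
    · refine ⟨1, fun u v hu hv hl => ?_⟩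
      rw [key]
      linarith [h u v hu hv hl]
  obtain ⟨ε, hε⟩ := hsec'
  -- the operator `A`
  set A : E n →L[ℝ] E n := K.comp J + J.comp K with hAdef
  have hAv : ∀ v, A v = K (J v) + J (K v) := fun v => rfl
  have hAsym : ∀ u v, ⟪g (A u), v⟫ = ⟪g (A v), u⟫ := by
    intro u v
    have e1 : ⟪g (K (J u)), v⟫ = ⟪g (J (K v)), u⟫ := by rw [hKt, hJt, neg_neg, hg]
    have e2 : ⟪g (J (K u)), v⟫ = ⟪g (K (J v)), u⟫ := by rw [hJt, hKt, neg_neg, hg]
    rw [hAv, hAv, map_add, map_add, inner_add_left, inner_add_left, e1, e2, add_comm]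
  have hAJ : ∀ v, A (J v) = J (A v) := by
    intro v
    rw [hAv, hAv, map_add, hJ, hJ, map_neg, add_comm]
  have hAR : ∀ u v, ⟪p, u⟫ = 0 → ⟪p, v⟫ = 0 → ∀ w, R u v (A w) = A (R u v w) := by
    intro u v hu hv w
    rw [hAv, hAv, map_add, hcom u v hu hv, r3, r3, hcom u v hu hv]
  -- eigenvectors in the hyperplane
  have hH : ∀ (a : ℝ) (x0 : E n), x0 ≠ 0 → A x0 = a • x0 →
      ∃ x, x ≠ 0 ∧ ⟪p, x⟫ = 0 ∧ A x = a • x := by
    intro a x0 hx0 hA0
    by_cases h : ⟪p, x0⟫ = 0
    · exact ⟨x0, hx0, h, hA0⟩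
    · refine ⟨⟪p, J x0⟫ • x0 - ⟪p, x0⟫ • J x0, ?_, ?_, ?_⟩
      · intro h0
        have h1 : ∃ t : ℝ, J x0 = t • x0 := by
          refine ⟨⟪p, J x0⟫ / ⟪p, x0⟫, ?_⟩
          rw [sub_eq_zero] at h0
          rw [div_eq_inv_mul, mul_smul, h0, smul_smul, inv_mul_cancel₀ h, one_smul]
        obtain ⟨t, ht⟩ := h1
        have h2 : -x0 = (t * t) • x0 := by
          have h3 := hJ x0
          rw [ht, map_smul, ht, smul_smul] at h3
          exact h3.symm
        have h4 : (t * t + 1) • x0 = 0 := by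
          rw [add_smul, ← h2, one_smul, neg_add_cancel]
        rcases smul_eq_zero.mp h4 with h5 | h5
        · nlinarith [mul_self_nonneg t]
        · exact hx0 h5
      · rw [inner_sub_right, inner_smul_right, inner_smul_right]
        ring
      · rw [map_sub, map_smul, map_smul, hAJ, hA0, map_smul, smul_sub, smul_comm a,
          smul_comm a]
  obtain ⟨a, x0, hx0, hAx0, hmax⟩ := exists_eig ⟨p, hp⟩ hg hpos A hAsym
  obtain ⟨b, y0, hy0, hAy0, hmin⟩ := exists_eig ⟨p, hp⟩ hg hpos (-A) (by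
    intro u v
    rw [neg_apply, neg_apply, map_neg, map_neg,
      inner_neg_left, inner_neg_left, hAsym])
  have hAy0' : A y0 = (-b) • y0 := by
    rw [neg_apply] at hAy0
    rw [neg_smul, ← hAy0, neg_neg]
  have hmin' : ∀ v, -b * ⟪g v, v⟫ ≤ ⟪g (A v), v⟫ := by
    intro v
    have := hmin v
    rw [neg_apply, map_neg, inner_neg_left] at this
    linarith
  by_cases hab : -b = a
  swap
  · -- two different eigenvalues
    exfalso
    obtain ⟨x, hx, hxp, hAx⟩ := hH a x0 hx0 hAx0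
    obtain ⟨y, hy, hyp, hAy⟩ := hH (-b) y0 hy0 hAy0'
    have hli : LinearIndependent ℝ ![x, y] := by
      rw [LinearIndependent.pair_iff]
      intro s t hst
      have h1 : A (s • x + t • y) = 0 := by rw [hst, map_zero]
      rw [map_add, map_smul, map_smul, hAx, hAy] at h1
      have h2 : (s * (a - -b)) • x = 0 := by
        have h3 : (-b) • (s • x + t • y) = 0 := by rw [hst, smul_zero]
        have h4 : s • a • x + t • (-b) • y - (-b) • (s • x + t • y) = (s * (a - -b)) • x := by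
          module
        rw [← h4, h1, h3, sub_zero]
      have hs : s = 0 := by
        rcases smul_eq_zero.mp h2 with h3 | h3
        · rcases mul_eq_zero.mp h3 with h4 | h4
          · exact h4
          · exact absurd (by linarith : -b = a) hab
        · exact absurd h3 hx
      subst hs
      rw [zero_smul, zero_add] at hst
      rcases smul_eq_zero.mp hst with h3 | h3
      · exact ⟨rfl, h3⟩
      · exact absurd h3 hy
    have h1 := hε x y hxp hyp hli
    have h2 : A (R x y x) = a • R x y x := by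
      rw [← hAR x y hxp hyp, hAx, map_smul]
    have h3 : ⟪g (A (R x y x)), y⟫ = a * ⟪g (R x y x), y⟫ := by
      rw [h2, map_smul, inner_smul_left, RCLike.conj_to_real]
    have h4 : ⟪g (A (R x y x)), y⟫ = -b * ⟪g (R x y x), y⟫ := by
      rw [hAsym, hAy, map_smul, inner_smul_left, RCLike.conj_to_real, hg y]
    have h5 : (a - -b) * ⟪g (R x y x), y⟫ = 0 := by linarith
    rcases mul_eq_zero.mp h5 with h6 | h6
    · exact hab (by linarith)
    · rw [h6, mul_zero] at h1
      exact lt_irrefl _ h1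
  -- `A = a`
  rw [hab] at hmin'
  have hQ : ∀ v, ⟪g (A v), v⟫ = a * ⟪g v, v⟫ := fun v => le_antisymm (hmax v) (hmin' v)
  have hAa : ∀ v, K (J v) + J (K v) = a • v := by
    intro v
    rw [← hAv]
    apply ext_of hpos
    intro w
    have h1 := hQ (v + w)
    simp only [map_add, inner_add_left, inner_add_right] at h1
    rw [hQ v, hQ w, hAsym w v, hg w v] at h1
    rw [map_smul, inner_smul_left, RCLike.conj_to_real]
    linarith
  set c : ℝ := a / 2 with hc
  have hac : a = 2 * c := by rw [hc]; ring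
  have hBKJ : ∀ u v, ⟪g u, K (J v)⟫ + ⟪g u, J (K v)⟫ = a * ⟪g u, v⟫ := by
    intro u v
    rw [← inner_add_right, hAa, inner_smul_right]
  have hLL : ∀ u v, ⟪g (K u + c • J u), K v + c • J v⟫ = (1 - c ^ 2) * ⟪g u, v⟫ := by
    intro u v
    simp only [map_add, map_smul, inner_add_left, inner_add_right, inner_smul_left,
      inner_smul_right, RCLike.conj_to_real]
    rw [hKg, hJg, hKt u (J v), hJt u (K v)]
    have := hBKJ u v
    rw [hac] at this
    linear_combination (-c) * this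
  have hBB : 0 < ⟪g p, p⟫ := hpos p hp
  have hc1 : 0 ≤ 1 - c ^ 2 := by
    have h1 : 0 ≤ ⟪g (K p + c • J p), K p + c • J p⟫ := by
      by_cases h : K p + c • J p = 0
      · rw [h, inner_zero_right]
      · exact (hpos _ h).le
    rw [hLL] at h1
    exact nonneg_of_mul_nonneg_left h1 hBB
  rcases hc1.eq_or_lt with hc0 | hκ
  · -- `c = ± 1`
    have h1 : ∀ v, K v + c • J v = 0 := by
      intro v
      by_contra h
      have h2 := hpos _ h
      rw [hLL, ← hc0, zero_mul] at h2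
      exact lt_irrefl _ h2
    have h2 : c = 1 ∨ c = -1 := by
      have h3 : (c - 1) * (c + 1) = 0 := by linear_combination hc0
      rcases mul_eq_zero.mp h3 with h4 | h4
      · left; linarith
      · right; linarith
    rcases h2 with h2 | h2
    · right
      intro v
      have := h1 v
      rw [h2, one_smul] at this
      exact eq_neg_of_add_eq_zero_left this
    · left
      intro v
      have := h1 v
      rw [h2, neg_smul, one_smul] at this
      rwa [← sub_eq_add_neg, sub_eq_zero] at this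
  · exfalso
    -- `ν`
    have hginj : Function.Injective (g : E n →ₗ[ℝ] E n) := by
      rw [← LinearMap.ker_eq_bot, LinearMap.ker_eq_bot']
      intro v hv
      by_contra h
      have h1 := hpos v h
      have h2 : g v = 0 := hv
      rw [h2, inner_zero_left] at h1
      exact lt_irrefl _ h1
    obtain ⟨ν, hν⟩ := (LinearMap.injective_iff_surjective.mp hginj) p
    have hν' : g ν = p := hν
    have hν0 : ν ≠ 0 := by
      rintro rfl
      rw [map_zero] at hν'
      exact hp hν'.symm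
    have hBJ0 : ∀ v, ⟪g v, J v⟫ = 0 := by
      intro v
      have h1 := hJt v v
      rw [hg (J v) v] at h1
      linarith
    have hBK0 : ∀ v, ⟪g v, K v⟫ = 0 := by
      intro v
      have h1 := hKt v v
      rw [hg (K v) v] at h1
      linarith
    have hKJ : ⟪g ν, K (J ν)⟫ = c * ⟪g ν, ν⟫ ∧ ⟪g ν, J (K ν)⟫ = c * ⟪g ν, ν⟫ := by
      have h1 := hBKJ ν ν
      have h2 : ⟪g ν, K (J ν)⟫ = ⟪g ν, J (K ν)⟫ := by
        have h3 := hKt ν (J ν)
        have h4 := hJt ν (K ν)
        rw [hg (K ν)] at h3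
        linarith
      rw [hac] at h1
      constructor <;> linarith
    set e : E n := K ν + c • J ν with he
    have hee : 0 < ⟪g e, e⟫ := by
      rw [he, hLL]
      exact mul_pos hκ (hpos ν hν0)
    have he0 : e ≠ 0 := by
      intro h
      rw [h, inner_zero_right] at hee
      exact lt_irrefl _ hee
    have hJne : ∀ v, v ≠ 0 → J v ≠ 0 := by
      intro v hv h
      apply hv
      have := hJ v
      rw [h, map_zero] at this
      exact neg_eq_zero.mp this.symm
    have hνe : ⟪g ν, e⟫ = 0 := by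
      rw [he, inner_add_right, inner_smul_right, hBK0, hBJ0]
      ring
    have hJe : J e = J (K ν) - c • ν := by
      rw [he, map_add, map_smul, hJ, smul_neg, sub_eq_add_neg]
    have pe : ⟪p, e⟫ = 0 := by rw [← hν']; exact hνe
    have pJν : ⟪p, J ν⟫ = 0 := by rw [← hν']; exact hBJ0 ν
    have pJe : ⟪p, J e⟫ = 0 := by
      rw [← hν', hJe, inner_sub_right, inner_smul_right, hKJ.2]
      ring
    have hli : ∀ u v : E n, u ≠ 0 → v ≠ 0 → ⟪g u, v⟫ = 0 → LinearIndependent ℝ ![u, v] := by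
      intro u v hu hv huv
      rw [LinearIndependent.pair_iff]
      intro s t hst
      have h1 : ⟪g u, s • u + t • v⟫ = 0 := by rw [hst, inner_zero_right]
      have h2 : ⟪g v, s • u + t • v⟫ = 0 := by rw [hst, inner_zero_right]
      rw [inner_add_right, inner_smul_right, inner_smul_right, huv] at h1
      rw [inner_add_right, inner_smul_right, inner_smul_right, hg v u, huv] at h2
      have hu' := (hpos u hu).ne'
      have hv' := (hpos v hv).ne'
      constructor
      · have : s * ⟪g u, u⟫ = 0 := by linarith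
        exact (mul_eq_zero.mp this).resolve_right hu'
      · have : t * ⟪g v, v⟫ = 0 := by linarith
        exact (mul_eq_zero.mp this).resolve_right hv'
    have t1 := hε e (J e) pe pJe (hli _ _ he0 (hJne _ he0) (hBJ0 e))
    have t2 := hε e (J ν) pe pJν (hli _ _ he0 (hJne _ hν0) (by
      rw [he, map_add, map_smul, inner_add_left, inner_smul_left, RCLike.conj_to_real, hKt, hJg,
        hKJ.1]
      ring))
    have t3 := hε (J e) (J ν) pJe pJν (hli _ _ (hJne _ he0) (hJne _ hν0) (by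
      rw [hJg, hg, hνe]))
    -- the two identities
    have i1 : ⟪g (R e (J e) e), J e⟫ = -(1 - c ^ 2) * ⟪g (R e (J e) ν), J ν⟫ := by
      have h1 : R e (J e) e = K (R e (J e) ν) + c • J (R e (J e) ν) := by
        conv_lhs => rw [he]
        rw [← he, map_add, map_smul, r3, hcom e (J e) pe pJe]
      have h2 : J e = -(K (J ν) + c • J (J ν)) := by
        have h3 := hAa ν
        rw [hac] at h3
        rw [hJe, hJ]
        have h4 : J (K ν) = (2 * c) • ν - K (J ν) := by rw [← h3]; abel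
        rw [h4]
        module
      have h3 : ⟪g (R e (J e) e), J e⟫ =
          ⟪g (K (R e (J e) ν) + c • J (R e (J e) ν)), -(K (J ν) + c • J (J ν))⟫ := by
        rw [← h1, ← h2]
      rw [h3, inner_neg_right, hLL]
      ring
    have i2 : ⟪g (R e (J e) ν), J ν⟫ =
        ⟪g (R e (J ν) e), J ν⟫ + ⟪g (R (J e) (J ν) (J e)), J ν⟫ := by
      have h1 := congrArg (fun v => ⟪g v, J ν⟫) (r2 e (J e) ν)
      simp only [map_add, inner_add_left, map_zero, inner_zero_left] at h1
      have h2 : ⟪g (R (J e) ν e), J ν⟫ = -⟪g (R e (J ν) e), J ν⟫ := by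
        rw [← r5 (J e) ν e, hJ, r4, map_neg, map_neg, inner_neg_left, ← r4]
      have h3 : ⟪g (R ν e (J e)), J ν⟫ = -⟪g (R (J e) (J ν) (J e)), J ν⟫ := by
        rw [ranti, r5]
      linarith
    rw [i2] at i1
    have : ε * ⟪g (R e (J e) e), J e⟫ + (1 - c ^ 2) * (ε * ⟪g (R e (J ν) e), J ν⟫) +
        (1 - c ^ 2) * (ε * ⟪g (R (J e) (J ν) (J e)), J ν⟫) = 0 := by
      rw [i1]; ring
    have h5 := mul_pos hκ t2
    have h6 := mul_pos hκ t3
    linarith

end KBR
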